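import Pool.Agent.Y607.UC.Fin

/-!
# Every fixed reliability coefficient above the spanning trees is `#P`-complete

Strictly stronger form of the starting theorem `UnicyclicSharpP` (the case `j = 1`, multigraphs):
for every fixed `j ≥ 1` the number of connected spanning subgraphs of cyclomatic number `j`, i.e.
the coefficient `F_{m-n+1-j}` of the all-terminal reliability polynomial, is `#P`-complete, and
the hardness holds on simple bipartite graphs.

* Attaching a new vertex by a double edge gives `N_{j+1}(G') = 2 N_{j+1}(G) + N_j(G)`, which
  reduces `N_j` to `N_{j+1}`.
* Subdividing every edge multiplies `N_j` by `2 ^ (m - n + 1 - j)` and makes the graph simple and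
  bipartite.
-/

namespace Pool.Agent.Results.MP_c3079b_lc.EveryCyclomaticNumber

open Pool.Agent.Uni Pool.Agent.NPC Pool.Agent.NPC.Cnt Pool.Agent.NPC.Y607UC

open Classical in
/-- **For every fixed `j ≥ 1` the reliability coefficient `F_{m-n+1-j}` is `#P`-complete.**
(1) Every function `g` on bit strings which, at the code of every connected simple bipartite graph
`G` with `n` vertices and `m ≥ n - 1 + j` edges, takes the value `F_{m-n+1-j}(G)` is `#P`-hard
under polynomial-time Turing reductions.
(2) `F_{m-n+1-j}(G)` is the number `cycCount j G` of spanning connected subgraphs of cyclomatic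
number `j` (`n - 1 + j` edges), for every multigraph.
(3) The function with value `cycCount j G` at the codes of connected loopless multigraphs (and `0`
at all other strings) is in `#P`. -/
theorem result (j : ℕ) (hj : 1 ≤ j) :
    (∀ g : List Bool → ℕ,
      (∀ G : MGraph, IsConnGraph G → SimpleBip G → G.1.length + j ≤ G.2.length + 1 →
        g (bits G) = Fcoeff G (G.2.length + 1 - (G.1.length + j))) → SharpPHard g) ∧
    (∀ G : MGraph, G.1.length + j ≤ G.2.length + 1 →
      Fcoeff G (G.2.length + 1 - (G.1.length + j)) = cycCount j G) ∧
    SharpP (strFn fun G : MGraph => if IsConnGraph G then cycCount j G else 0) :=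
  main j hj

end Pool.Agent.Results.MP_c3079b_lc.EveryCyclomaticNumber
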